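import Pool.Agent.K4H17.FPP.AsmInner

/-! # Planar first-passage percolation: the inner half of the shape problem

The hypotheses of `result` on `Ω, X, T, μ` are exactly those of the frozen statement of the
problem. The exponent `a = 1/3` is the one of the problem. -/

set_option autoImplicit false
open MeasureTheory ProbabilityTheory Filter
open scoped Pointwise

namespace Pool.Agent.Results.MP_de94ef_pr.InnerHalfIntegratedForm

/-- the fattened cluster `A_t^F` -/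
def cluster {Ω : Type} (T : Ω → ℤ × ℤ → ℝ) (t : ℝ) (ω : Ω) : Set (ℝ × ℝ) :=
  {x : ℝ × ℝ | ∃ v : ℤ × ℤ, T ω v ≤ t ∧ |x.1 - (v.1 : ℝ)| ≤ 1 / 2 ∧ |x.2 - (v.2 : ℝ)| ≤ 1 / 2}

/-- the probability that `A_t^F` misses a point of `(1 - t^(a-1+ζ)) t 𝔸` -/
noncomputable def innerProb {Ω : Type} [MeasureSpace Ω] (T : Ω → ℤ × ℤ → ℝ) (μ : ℝ × ℝ → ℝ)
    (a ζ t : ℝ) : ℝ :=
  ((volume : Measure Ω) {ω | ¬ (((1 - t ^ (a - 1 + ζ)) * t) • {x : ℝ × ℝ | μ x ≤ 1} ⊆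
    cluster T t ω)}).toReal

/-- the `ℓ¹` norm of a lattice point -/
def len (v : ℤ × ℤ) : ℝ := |(v.1 : ℝ)| + |(v.2 : ℝ)|

theorem result (Ω : Type) [MeasureSpace Ω] [IsProbabilityMeasure (volume : Measure Ω)]
    (X : Sym2 (ℤ × ℤ) → Ω → ℝ) (T : Ω → ℤ × ℤ → ℝ) (μ : ℝ × ℝ → ℝ)
    (hX : ∀ e, Measurable (X e))
    (hI : iIndepFun X (volume : Measure Ω))
    (hL : ∀ e, Measure.map (X e) (volume : Measure Ω) = expMeasure 1)
    (hT : ∀ ω v, T ω v = sInf {s : ℝ | ∃ n : ℕ, ∃ p : ℕ → ℤ × ℤ, p 0 = 0 ∧ p n = v ∧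
        (∀ i < n, |(p (i + 1)).1 - (p i).1| + |(p (i + 1)).2 - (p i).2| = 1) ∧
        s = ∑ i ∈ Finset.range n, X s(p i, p (i + 1)) ω})
    (hhom : ∀ (x : ℝ × ℝ) (c : ℝ), 0 ≤ c → μ (c • x) = c * μ x)
    (hcont : Continuous μ)
    (hlim : ∀ z : ℤ × ℤ, ∀ᵐ ω ∂(volume : Measure Ω),
        Tendsto (fun n : ℕ => T ω ((n : ℤ) • z) / (n : ℝ)) atTop
          (nhds (μ ((z.1 : ℝ), (z.2 : ℝ)))))
    (a : ℝ) (ha : 0 < a) (ha1 : a < 1) :
    List.TFAE [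
      -- the inner half of the problem, with exponent `a`
      ∀ ζ : ℝ, 0 < ζ → ζ < 1 - a → ∀ q : ℝ, 0 < q →
        innerProb T μ a ζ =O[atTop] fun t : ℝ => t ^ (-q),
      -- the same with some polynomial rate, which may depend on `ζ`
      ∀ ζ : ℝ, 0 < ζ → ζ < 1 - a → ∃ q : ℝ, 0 < q ∧
        innerProb T μ a ζ =O[atTop] fun t : ℝ => t ^ (-q),
      -- point-to-point upper tail with some polynomial rate
      ∀ ε : ℝ, 0 < ε → ∃ q : ℝ, 0 < q ∧ ∃ C : ℝ, ∀ v : ℤ × ℤ, v ≠ 0 →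
        ((volume : Measure Ω) {ω | μ ((v.1 : ℝ), (v.2 : ℝ)) + len v ^ (a + ε) ≤ T ω v}).toReal ≤
          C * len v ^ (-q),
      -- first moment bound
      ∀ ε : ℝ, 0 < ε → ∃ C : ℝ, ∀ v : ℤ × ℤ, Integrable (fun ω => T ω v) (volume : Measure Ω) ∧
        ∫ ω, |T ω v - μ ((v.1 : ℝ), (v.2 : ℝ))| ≤ C * (1 + len v) ^ (a + ε),
      -- stretched exponential rate
      ∀ ζ : ℝ, 0 < ζ → ζ < 1 - a → ∃ c : ℝ, 0 < c ∧ ∀ᶠ t : ℝ in atTop,
        innerProb T μ a ζ t ≤ Real.exp (-t ^ c)] := by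
  have hS : K4H17.FPP.Setting Ω X T μ :=
    { prob := inferInstance, meas := hX, indep := hI, law := hL, hT := hT, hom := hhom,
      cont := hcont, lim := hlim }
  have h := K4H17.FPP.inner_tfae hS a ha ha1
  simp only [K4H17.FPP.nrm_cast] at h
  exact h

end Pool.Agent.Results.MP_de94ef_pr.InnerHalfIntegratedForm
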