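import Pool.Agent.K4H17.FPP.LD.Asm

/-! # Planar first-passage percolation: the outer half is a large deviation statement

The hypotheses of `result` on `Ω, X, T, μ` are exactly those of the frozen statement of the
problem. The exponent `a = 1/3` is the one of the problem; then `1 / (1 - a) = 3 / 2`. -/

set_option autoImplicit false
open MeasureTheory ProbabilityTheory Filter
open scoped Pointwise Topology

namespace Pool.Agent.Results.MP_de94ef_pr.RateFunction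

/-- the fattened cluster `A_t^F` -/
def cluster {Ω : Type} (T : Ω → ℤ × ℤ → ℝ) (t : ℝ) (ω : Ω) : Set (ℝ × ℝ) :=
  {x : ℝ × ℝ | ∃ v : ℤ × ℤ, T ω v ≤ t ∧ |x.1 - (v.1 : ℝ)| ≤ 1 / 2 ∧ |x.2 - (v.2 : ℝ)| ≤ 1 / 2}

/-- the probability that `A_t^F` leaves `(1 + t^(a-1+ζ)) t 𝔸` -/
noncomputable def outerProb {Ω : Type} [MeasureSpace Ω] (T : Ω → ℤ × ℤ → ℝ) (μ : ℝ × ℝ → ℝ)
    (a ζ t : ℝ) : ℝ :=
  ((volume : Measure Ω) {ω | ¬ (cluster T t ω ⊆
    ((1 + t ^ (a - 1 + ζ)) * t) • {x : ℝ × ℝ | μ x ≤ 1})}).toReal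

/-- the `ℓ¹` norm of a lattice point -/
def len (v : ℤ × ℤ) : ℝ := |(v.1 : ℝ)| + |(v.2 : ℝ)|

/-- the probability that the passage time to `v` is less than `(1 - θ) μ(v)` -/
noncomputable def lowProb {Ω : Type} [MeasureSpace Ω] (T : Ω → ℤ × ℤ → ℝ) (μ : ℝ × ℝ → ℝ)
    (v : ℤ × ℤ) (θ : ℝ) : ℝ :=
  ((volume : Measure Ω) {ω | T ω v < (1 - θ) * μ ((v.1 : ℝ), (v.2 : ℝ))}).toReal

theorem result (Ω : Type) [MeasureSpace Ω] [IsProbabilityMeasure (volume : Measure Ω)]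
    (X : Sym2 (ℤ × ℤ) → Ω → ℝ) (T : Ω → ℤ × ℤ → ℝ) (μ : ℝ × ℝ → ℝ)
    (hX : ∀ e, Measurable (X e))
    (hI : iIndepFun X (volume : Measure Ω))
    (hL : ∀ e, Measure.map (X e) (volume : Measure Ω) = expMeasure 1)
    (hT : ∀ ω v, T ω v = sInf {s : ℝ | ∃ n : ℕ, ∃ p : ℕ → ℤ × ℤ, p 0 = 0 ∧ p n = v ∧
        (∀ i < n, |(p (i + 1)).1 - (p i).1| + |(p (i + 1)).2 - (p i).2| = 1) ∧
        s = ∑ i ∈ Finset.range n, X s(p i, p (i + 1)) ω})
    (hhom : ∀ (x : ℝ × ℝ) (c : ℝ), 0 ≤ c → μ (c • x) = c * μ x)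
    (hcont : Continuous μ)
    (hlim : ∀ z : ℤ × ℤ, ∀ᵐ ω ∂(volume : Measure Ω),
        Tendsto (fun n : ℕ => T ω ((n : ℤ) • z) / (n : ℝ)) atTop
          (nhds (μ ((z.1 : ℝ), (z.2 : ℝ))))) :
    ∃ I : ℤ × ℤ → ℝ → ℝ,
      -- the large deviation rate function of the lower tail exists
      (∀ v : ℤ × ℤ, v ≠ 0 → ∀ θ : ℝ, 0 < θ → θ < 1 →
        Tendsto (fun n : ℕ => -Real.log (lowProb T μ (n • v) θ) / n) atTop (nhds (I v θ))) ∧
      ∀ a : ℝ, 0 < a → a < 1 → List.TFAE [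
        -- the outer half of the problem, with exponent `a`
        ∀ ζ : ℝ, 0 < ζ → ζ < 1 - a → ∀ q : ℝ, 0 < q →
          outerProb T μ a ζ =O[atTop] fun t : ℝ => t ^ (-q),
        -- the exponent of the rate function at `0` is at most `1 / (1 - a)`
        ∀ κ : ℝ, 1 / (1 - a) < κ → ∃ c : ℝ, 0 < c ∧ ∀ v : ℤ × ℤ, v ≠ 0 →
          ∀ θ : ℝ, 0 < θ → θ < 1 → c * θ ^ κ * len v ≤ I v θ,
        -- the same for every finite volume
        ∀ κ : ℝ, 1 / (1 - a) < κ → ∃ c : ℝ, 0 < c ∧ ∀ v : ℤ × ℤ, v ≠ 0 →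
          ∀ θ : ℝ, 0 < θ → θ < 1 → lowProb T μ v θ ≤ Real.exp (-(c * θ ^ κ * len v)),
        -- tail with exponent `1 / (1 - a)` at every scale above `|v|^a`
        ∀ ε : ℝ, 0 < ε → ∃ L : ℝ, ∀ v : ℤ × ℤ, L ≤ len v → ∀ s : ℝ, 1 ≤ s →
          ((volume : Measure Ω)
              {ω | T ω v < μ ((v.1 : ℝ), (v.2 : ℝ)) - s * len v ^ (a + ε)}).toReal ≤
            Real.exp (-s ^ (1 / (1 - a)))] := by
  have hS : K4H17.FPP.Setting Ω X T μ :=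
    { prob := inferInstance, meas := hX, indep := hI, law := hL, hT := hT, hom := hhom,
      cont := hcont, lim := hlim }
  have h := K4H17.FPP.rate_tfae hS
  simp only [K4H17.FPP.nrm_cast] at h
  exact h

end Pool.Agent.Results.MP_de94ef_pr.RateFunction
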